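import Pool.Agent.Work.MP_81f94f_an.LOne

set_option autoImplicit false

namespace Pool.Agent.Results.MP_81f94f_an.Plateau

open MeasureTheory Set Filter
open Pool.Agent.Work.N81f94f
open scoped ENNReal Topology

/-- The counterexample: `om n = (1 / (1 + ⌊log_8 n⌋)) ^ n`. -/
noncomputable def om (n : ℕ) : ℝ := (1 / (1 + (Nat.log 8 n : ℝ))) ^ n

theorem om_root (n : ℕ) (hn : 1 ≤ n) : om n ^ (1 / (n:ℝ)) = 1 / (1 + (Nat.log 8 n : ℝ)) := by
  unfold om
  rw [one_div (n:ℝ)]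
  exact Real.pow_rpow_inv_natCast (by positivity) (by omega)

theorem r_anti {m n : ℕ} (h : m ≤ n) :
    1 / (1 + (Nat.log 8 n : ℝ)) ≤ 1 / (1 + (Nat.log 8 m : ℝ)) := by
  refine one_div_le_one_div_of_le (by positivity) ?_
  have : (Nat.log 8 m : ℝ) ≤ Nat.log 8 n := by exact_mod_cast Nat.log_mono_right h
  linarith

theorem om_pos (n : ℕ) : 0 < om n := by unfold om; positivity

theorem om_two : om 2 = om 1 ^ 2 := by
  unfold om
  have h1 : Nat.log 8 2 = 0 := Nat.log_of_lt (by norm_num)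
  have h2 : Nat.log 8 1 = 0 := Nat.log_of_lt (by norm_num)
  rw [h1, h2]
  norm_num

theorem om_block (N : ℕ) : ∃ n, N ≤ n ∧ ∀ i, n ≤ i → i ≤ 2 * n → om (2 * i) = om i ^ 2 := by
  refine ⟨8 ^ N, (Nat.lt_pow_self (by norm_num)).le, fun i h1 h2 => ?_⟩
  have hp : 0 < 8 ^ N := by positivity
  have h3 : Nat.log 8 i = N := by
    refine (Nat.log_eq_iff (Or.inr ⟨by norm_num, by omega⟩)).2 ⟨h1, ?_⟩
    rw [pow_succ]; omega
  have h4 : Nat.log 8 (2 * i) = N := by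
    refine (Nat.log_eq_iff (Or.inr ⟨by norm_num, by omega⟩)).2 ⟨by omega, ?_⟩
    rw [pow_succ]; omega
  unfold om
  rw [h3, h4, ← pow_mul, mul_comm]

theorem om_sub (m n : ℕ) : om (m + n) ≤ om m * om n := by
  unfold om
  rw [pow_add]
  have h1 := r_anti (show m ≤ m + n by omega)
  have h2 := r_anti (show n ≤ m + n by omega)
  gcongr

theorem om_lim : Tendsto (fun n : ℕ => om n ^ (1 / (n:ℝ))) atTop (𝓝 0) := by
  have h1 : Tendsto (fun n : ℕ => 1 / (1 + (Nat.log 8 n : ℝ))) atTop (𝓝 0) := by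
    have h2 : Tendsto (fun n : ℕ => Nat.log 8 n) atTop atTop := by
      refine tendsto_atTop.2 (fun b => ?_)
      filter_upwards [eventually_ge_atTop (8 ^ b)] with n hn
      exact (Nat.le_log_iff_pow_le (by norm_num)
        (by have : 0 < 8 ^ b := by positivity
            omega)).2 hn
    have h3 : Tendsto (fun n : ℕ => 1 + (Nat.log 8 n : ℝ)) atTop atTop :=
      tendsto_atTop_add_const_left _ _ (tendsto_natCast_atTop_atTop.comp h2)
    simpa using h3.const_div_atTop (1:ℝ)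
  refine h1.congr' ?_
  filter_upwards [eventually_ge_atTop 1] with n hn
  exact (om_root n hn).symm

/-- Not every sequence satisfying (i)-(iv) is the sequence of norms of the powers of an element of
`M(0,1)` or of `L^1[0,1]`: a general criterion, and an explicit sequence. -/
theorem result :
    (∀ ω : ℕ → ℝ, (∀ n, 1 ≤ n → 0 < ω n) → ω 2 = ω 1 ^ 2 →
      (∀ N : ℕ, ∃ n, N ≤ n ∧ ∀ i, n ≤ i → i ≤ 2 * n → ω (2 * i) = ω i ^ 2) →
      (¬ ∃ μ ∈ M01, ∀ n, 1 ≤ n → (tpow μ n).variation univ = ENNReal.ofReal (ω n)) ∧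
      (¬ ∃ f : ℝ → ℂ, IntegrableOn f (Icc 0 1) ∧
        ∀ n, 1 ≤ n → ∫ t in (0:ℝ)..1, ‖fpow f n t‖ = ω n)) ∧
    (∀ n, 0 ≤ om n) ∧
    (∀ m n, om (m + n) ≤ om m * om n) ∧
    Tendsto (fun n : ℕ => om n ^ (1 / (n:ℝ))) atTop (𝓝 0) ∧
    (∀ m n : ℕ, 1 ≤ m → m ≤ n → om n ^ (1 / (n:ℝ)) ≤ om m ^ (1 / (m:ℝ))) ∧
    (¬ ∃ μ ∈ M01, ∀ n, 1 ≤ n → (tpow μ n).variation univ = ENNReal.ofReal (om n)) ∧
    (¬ ∃ f : ℝ → ℂ, IntegrableOn f (Icc 0 1) ∧
      ∀ n, 1 ≤ n → ∫ t in (0:ℝ)..1, ‖fpow f n t‖ = om n) := by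
  refine ⟨fun ω h1 h2 h3 => ⟨criterion h1 h2 h3, criterion_L1 h1 h2 h3⟩,
    fun n => (om_pos n).le, om_sub, om_lim, ?_,
    criterion (fun n _ => om_pos n) om_two om_block,
    criterion_L1 (fun n _ => om_pos n) om_two om_block⟩
  intro m n h1 h2
  rw [om_root m h1, om_root n (h1.trans h2)]
  exact r_anti h2

end Pool.Agent.Results.MP_81f94f_an.Plateau
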